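import Pool.Agent.Helper14.GS.St

/-! Project GS (MP_627c93_nt), module A1: partial fractions with integer coefficients. -/

set_option autoImplicit false

namespace Pool.Agent.Helper2.GS

open Pool.Agent.Helper14.GS Finset

/-- truncation of a sum -/
theorem sum_trunc {A : Type} [AddCommMonoid A] {m M : ℕ} (h : m ≤ M) (F : ℕ → A) :
    ∑ i ∈ Icc 1 M, (if i ≤ m then F i else 0) = ∑ i ∈ Icc 1 m, F i := by
  rw [← sum_filter]
  congr 1
  ext i
  simp only [mem_filter, mem_Icc]
  omega

/-- one factor taken out -/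
theorem prod_out {k : ℕ} (w : ℕ → ℝ) (s : ℕ → ℕ) {j : ℕ} (hj : j ∈ range k) (hs : 1 ≤ s j) :
    ∏ i ∈ range k, w i ^ s i = w j * ∏ i ∈ range k, w i ^ (Function.update s j (s j - 1)) i := by
  rw [← mul_prod_erase _ _ hj, ← mul_prod_erase (range k) (fun i => w i ^ (Function.update s j (s j - 1)) i) hj]
  rw [Function.update_self]
  have e : ∏ i ∈ (range k).erase j, w i ^ (Function.update s j (s j - 1)) i = ∏ i ∈ (range k).erase j, w i ^ s i := by
    refine prod_congr rfl fun i hi => ?_
    rw [Function.update_of_ne (ne_of_mem_erase hi)]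
  rw [e, ← mul_assoc, ← pow_succ', Nat.sub_add_cancel hs]

theorem sum_out {k : ℕ} (s : ℕ → ℕ) {j : ℕ} (hj : j ∈ range k) (hs : 1 ≤ s j) :
    ∑ i ∈ range k, (Function.update s j (s j - 1)) i + 1 = ∑ i ∈ range k, s i := by
  rw [← add_sum_erase _ _ hj, ← add_sum_erase (range k) s hj, Function.update_self]
  have e : ∑ i ∈ (range k).erase j, (Function.update s j (s j - 1)) i = ∑ i ∈ (range k).erase j, s i := by
    refine sum_congr rfl fun i hi => ?_
    rw [Function.update_of_ne (ne_of_mem_erase hi)]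
  rw [e]
  omega

theorem upd_le (s : ℕ → ℕ) (j i : ℕ) : (Function.update s j (s j - 1)) i ≤ s i := by
  by_cases h : i = j
  · subst h; rw [Function.update_self]; omega
  · rw [Function.update_of_ne h]

theorem A1 : StA1 := by
  intro k n s hn hs
  -- the factors do not vanish
  have hpos : ∀ (x : ℝ), 0 ≤ x → ∀ j : ℕ, 0 < x + ((n + j : ℕ) : ℝ) := by
    intro x hx j
    have : (1 : ℝ) ≤ ((n + j : ℕ) : ℝ) := by
      have : 1 ≤ n + j := by omega
      exact_mod_cast this
    linarith
  induction hσ : ∑ j ∈ range k, s j using Nat.strong_induction_on generalizing s with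
  | _ σ ih =>
  by_cases hone : ∃ j ∈ range k, ∀ i ∈ range k, i ≠ j → s i = 0
  · obtain ⟨j, hj, hz⟩ := hone
    have hsj : s j = σ := by
      rw [← hσ, ← add_sum_erase _ _ hj, sum_eq_zero fun i hi => hz i (mem_of_mem_erase hi) (ne_of_mem_erase hi), add_zero]
    have hσ1 : 1 ≤ σ := by omega
    obtain ⟨c, hc⟩ : ∃ c : ℕ → ℕ → ℤ, ∀ j' i, c j' i = if j' = j ∧ i = σ then (k.factorial : ℤ) ^ σ else 0 :=
      ⟨_, fun _ _ => rfl⟩
    have hcj : c j σ = (k.factorial : ℤ) ^ σ := by rw [hc, if_pos ⟨rfl, rfl⟩]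
    have hc1 : ∀ j' i, j' ≠ j → c j' i = 0 := fun j' i h => by rw [hc, if_neg fun h2 => h h2.1]
    have hc2 : ∀ j' i, i ≠ σ → c j' i = 0 := fun j' i h => by rw [hc, if_neg fun h2 => h h2.2]
    refine ⟨c, ?_, ?_⟩
    · rw [sum_eq_single_of_mem j hj (fun j' _ hne => sum_eq_zero fun i _ => by rw [hc1 _ _ hne, abs_zero])]
      rw [sum_eq_single_of_mem σ (by rw [mem_Icc, hsj]; omega) (fun i _ hne => by rw [hc2 _ _ hne, abs_zero])]
      rw [hcj, abs_of_nonneg (by positivity)]
      have : (0 : ℤ) ≤ k.factorial := by positivity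
      gcongr
      linarith
    · intro x hx
      rw [sum_eq_single_of_mem j hj (fun j' _ hne => sum_eq_zero fun i _ => by rw [hc1 _ _ hne, Int.cast_zero, zero_mul])]
      rw [sum_eq_single_of_mem σ (by rw [mem_Icc, hsj]; omega) (fun i _ hne => by rw [hc2 _ _ hne, Int.cast_zero, zero_mul])]
      rw [hcj, prod_eq_single_of_mem j hj (fun i hi hne => by rw [hz i hi hne, pow_zero]), hsj]
      push_cast
      rfl
  · -- two nonzero exponents
    obtain ⟨j, hj, hsj⟩ : ∃ j ∈ range k, 1 ≤ s j := by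
      by_contra hcon
      push Not at hcon
      have : ∑ j ∈ range k, s j = 0 := sum_eq_zero fun i hi => by have := hcon i hi; omega
      omega
    obtain ⟨l, hl, hlj, hsl⟩ : ∃ l ∈ range k, l ≠ j ∧ 1 ≤ s l := by
      by_contra hcon
      push Not at hcon
      refine hone ⟨j, hj, fun i hi hne => ?_⟩
      have := hcon i hi hne
      omega
    obtain ⟨s1, hs1⟩ : ∃ s1, s1 = Function.update s l (s l - 1) := ⟨_, rfl⟩
    obtain ⟨s2, hs2⟩ : ∃ s2, s2 = Function.update s j (s j - 1) := ⟨_, rfl⟩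
    have hs1j : s1 j = s j := by rw [hs1, Function.update_of_ne hlj.symm]
    have hs2l : s2 l = s l := by rw [hs2, Function.update_of_ne hlj]
    have sum1 : ∑ i ∈ range k, s1 i + 1 = σ := by rw [hs1, sum_out s hl hsl, hσ]
    have sum2 : ∑ i ∈ range k, s2 i + 1 = σ := by rw [hs2, sum_out s hj hsj, hσ]
    have hp1 : 1 ≤ ∑ i ∈ range k, s1 i := by
      have := single_le_sum (f := s1) (fun _ _ => Nat.zero_le _) hj
      omega
    have hp2 : 1 ≤ ∑ i ∈ range k, s2 i := by
      have := single_le_sum (f := s2) (fun _ _ => Nat.zero_le _) hl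
      omega
    obtain ⟨c1, hc1, hc1'⟩ := ih (∑ i ∈ range k, s1 i) (by omega) s1 hp1 rfl
    obtain ⟨c2, hc2, hc2'⟩ := ih (∑ i ∈ range k, s2 i) (by omega) s2 hp2 rfl
    obtain ⟨g, hg⟩ : ∃ g : ℤ, g * ((l : ℤ) - j) = k.factorial := by
      have h1 : ((l : ℤ) - j) ∣ (k.factorial : ℤ) := by
        rw [← Int.natAbs_dvd, Int.natCast_dvd_natCast]
        rw [mem_range] at hj hl
        exact Nat.dvd_factorial (by omega) (by omega)
      obtain ⟨g, hg⟩ := h1
      exact ⟨g, by rw [hg, mul_comm]⟩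
    have hgabs : |g| ≤ k.factorial := by
      have h1 : |g| * |(l : ℤ) - j| = k.factorial := by
        rw [← abs_mul, hg]
        exact abs_of_nonneg (by positivity)
      have h2 : 1 ≤ |(l : ℤ) - j| := by
        apply Int.one_le_abs
        omega
      nlinarith [abs_nonneg g]
    refine ⟨fun j' i => g * ((if i ≤ s1 j' then c1 j' i else 0) - (if i ≤ s2 j' then c2 j' i else 0)), ?_, ?_⟩
    · have hb : ∀ j' ∈ range k, ∑ i ∈ Icc 1 (s j'),
          |g * ((if i ≤ s1 j' then c1 j' i else 0) - (if i ≤ s2 j' then c2 j' i else 0))| ≤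
          (k.factorial : ℤ) * (∑ i ∈ Icc 1 (s1 j'), |c1 j' i| + ∑ i ∈ Icc 1 (s2 j'), |c2 j' i|) := by
        intro j' _
        rw [← sum_trunc (show s1 j' ≤ s j' from by rw [hs1]; exact upd_le s l j') (fun i => |c1 j' i|),
          ← sum_trunc (show s2 j' ≤ s j' from by rw [hs2]; exact upd_le s j j') (fun i => |c2 j' i|),
          ← sum_add_distrib, mul_sum]
        refine sum_le_sum fun i _ => ?_
        rw [abs_mul]
        refine mul_le_mul hgabs ?_ (abs_nonneg _) (by positivity)
        refine (abs_sub _ _).trans (le_of_eq ?_)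
        congr 1
        · split_ifs <;> simp
        · split_ifs <;> simp
      refine (sum_le_sum hb).trans ?_
      rw [← mul_sum, sum_add_distrib]
      have e1 : ∑ i ∈ range k, s1 i = σ - 1 := by omega
      have e2 : ∑ i ∈ range k, s2 i = σ - 1 := by omega
      rw [e1] at hc1
      rw [e2] at hc2
      have e3 : (2 * (k.factorial : ℤ)) ^ σ = (k.factorial : ℤ) * ((2 * (k.factorial : ℤ)) ^ (σ - 1) + (2 * (k.factorial : ℤ)) ^ (σ - 1)) := by
        conv_lhs => rw [show σ = (σ - 1) + 1 by omega, pow_succ]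
        ring
      rw [e3]
      have : (0 : ℤ) ≤ k.factorial := by positivity
      gcongr
    · intro x hx
      have i1 := hc1' x hx
      have i2 := hc2' x hx
      have e1 : ∑ i ∈ range k, s1 i = σ - 1 := by omega
      have e2 : ∑ i ∈ range k, s2 i = σ - 1 := by omega
      rw [e1] at i1
      rw [e2] at i2
      -- the right side
      have hr : ∑ j' ∈ range k, ∑ i ∈ Icc 1 (s j'),
          ((g * ((if i ≤ s1 j' then c1 j' i else 0) - (if i ≤ s2 j' then c2 j' i else 0)) : ℤ) : ℝ) *
            ((x + ((n + j' : ℕ) : ℝ))⁻¹) ^ i =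
          g * (∑ j' ∈ range k, ∑ i ∈ Icc 1 (s1 j'), (c1 j' i : ℝ) * ((x + ((n + j' : ℕ) : ℝ))⁻¹) ^ i -
            ∑ j' ∈ range k, ∑ i ∈ Icc 1 (s2 j'), (c2 j' i : ℝ) * ((x + ((n + j' : ℕ) : ℝ))⁻¹) ^ i) := by
        rw [← sum_sub_distrib, mul_sum]
        refine sum_congr rfl fun j' _ => ?_
        rw [← sum_trunc (show s1 j' ≤ s j' from by rw [hs1]; exact upd_le s l j')
            (fun i => (c1 j' i : ℝ) * ((x + ((n + j' : ℕ) : ℝ))⁻¹) ^ i),
          ← sum_trunc (show s2 j' ≤ s j' from by rw [hs2]; exact upd_le s j j')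
            (fun i => (c2 j' i : ℝ) * ((x + ((n + j' : ℕ) : ℝ))⁻¹) ^ i),
          ← sum_sub_distrib, mul_sum]
        refine sum_congr rfl fun i _ => ?_
        push_cast
        split_ifs <;> ring
      rw [hr, ← i1, ← i2]
      -- the products
      obtain ⟨w, hw⟩ : ∃ w : ℕ → ℝ, w = fun i => (x + ((n + i : ℕ) : ℝ))⁻¹ := ⟨_, rfl⟩
      have hwi : ∀ i, (x + ((n + i : ℕ) : ℝ))⁻¹ = w i := fun i => by rw [hw]
      simp only [hwi]
      have p1 : ∏ i ∈ range k, w i ^ s i = w j * ∏ i ∈ range k, w i ^ s2 i := by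
        rw [hs2]; exact prod_out w s hj hsj
      have p2 : ∏ i ∈ range k, w i ^ s2 i = w l * ∏ i ∈ range k, w i ^ (Function.update s2 l (s2 l - 1)) i :=
        prod_out w s2 hl (by omega)
      have p3 : ∏ i ∈ range k, w i ^ s1 i = w j * ∏ i ∈ range k, w i ^ (Function.update s1 j (s1 j - 1)) i :=
        prod_out w s1 hj (by omega)
      have e3 : Function.update s1 j (s1 j - 1) = Function.update s2 l (s2 l - 1) := by
        rw [hs1j, hs2l, hs1, hs2, Function.update_comm hlj]
      rw [e3] at p3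
      have hk : (k.factorial : ℝ) = g * ((l : ℝ) - j) := by
        have : ((g * ((l : ℤ) - j) : ℤ) : ℝ) = ((k.factorial : ℤ) : ℝ) := by rw [hg]
        push_cast at this
        exact this.symm
      have hwj : w j - w l = ((l : ℝ) - j) * (w j * w l) := by
        rw [← hwi, ← hwi]
        have a1 := (hpos x hx j).ne'
        have a2 := (hpos x hx l).ne'
        field_simp
        push_cast
        ring
      have hpow : (k.factorial : ℝ) ^ σ = k.factorial * (k.factorial : ℝ) ^ (σ - 1) := by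
        conv_lhs => rw [show σ = (σ - 1) + 1 by omega, pow_succ]
        ring
      rw [p1, p3, p2, hpow]
      generalize ∏ i ∈ range k, w i ^ (Function.update s2 l (s2 l - 1)) i = R
      have : g * (w j - w l) = k.factorial * (w j * w l) := by rw [hwj, hk]; ring
      linear_combination (-(k.factorial : ℝ) ^ (σ - 1) * R) * this

end Pool.Agent.Helper2.GS
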