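import Pool.Agent.Helper14.GS.St

/-! Project GS (MP_627c93_nt), module A4: assembly of A1, A2, A3. -/

set_option autoImplicit false

namespace Pool.Agent.Helper2.GS

open Pool.Agent.Helper14.GS Finset

theorem A4 (h1 : StA1) (h2 : StA2) (h3 : StA3) : StA4 := by
  intro k hk
  obtain ⟨C₃, hC₃, hd⟩ := h3
  have hf1 : 1 ≤ k.factorial := Nat.one_le_iff_ne_zero.2 (Nat.factorial_ne_zero k)
  refine ⟨(2 * k.factorial) ^ k * C₃ ^ 2, Nat.one_le_iff_ne_zero.2 (by positivity), ?_⟩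
  intro n hn N
  obtain ⟨d, hd1, hd2, hd3⟩ := hd (2 * N)
  refine ⟨k.factorial ^ (k * (N + 1)) * d, Nat.one_le_iff_ne_zero.2 (by positivity), ?_, ?_⟩
  · calc k.factorial ^ (k * (N + 1)) * d ≤ (2 * k.factorial) ^ (k * (N + 1)) * C₃ ^ (2 * (N + 1)) := by
          refine Nat.mul_le_mul (Nat.pow_le_pow_left (by omega) _) (hd2.trans ?_)
          exact Nat.pow_le_pow_right hC₃ (by omega)
      _ = ((2 * k.factorial) ^ k * C₃ ^ 2) ^ (N + 1) := by
          rw [mul_pow ((2 * k.factorial) ^ k) (C₃ ^ 2) (N + 1), ← pow_mul, ← pow_mul]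
  intro D hD
  -- partial fractions
  have hsum : ∑ _j ∈ range k, (D + 1) = k * (D + 1) := by simp
  obtain ⟨c, hc1, hc2⟩ := h1 k n (fun _ => D + 1) hn (by rw [hsum]; exact Nat.one_le_iff_ne_zero.2 (by positivity))
  rw [hsum] at hc1
  simp only [hsum] at hc2
  -- one node
  have h2' : ∀ j i : ℕ, ∃ A r : ℤ, 1 ≤ i → i ≤ D + 1 → (|A| ≤ (((n + j : ℕ) : ℤ) + 2) ^ (2 * D) ∧
      (d : ℝ) * ∫ x in (0 : ℝ)..1, x ^ D * (1 - x) ^ D * ((x + ((n + j : ℕ) : ℝ))⁻¹) ^ i =
        d * A * Real.log ((((n + j : ℕ) : ℝ) + 1) / ((n + j : ℕ) : ℝ)) + r) := by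
    intro j i
    by_cases hi : 1 ≤ i ∧ i ≤ D + 1
    · obtain ⟨A, r, hA⟩ := h2 D (n + j) i d (by omega) hi.1 hi.2 (fun r hr1 hr2 => hd3 r hr1 (by omega))
      exact ⟨A, r, fun _ _ => hA⟩
    · exact ⟨0, 0, fun h4 h5 => absurd ⟨h4, h5⟩ hi⟩
  choose A r hAr using h2'
  -- the integral
  have hint : ∀ j i : ℕ, IntervalIntegrable (fun x : ℝ => x ^ D * (1 - x) ^ D * ((x + ((n + j : ℕ) : ℝ))⁻¹) ^ i)
      MeasureTheory.volume 0 1 := by
    intro j i
    apply ContinuousOn.intervalIntegrable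
    rw [Set.uIcc_of_le zero_le_one]
    refine ContinuousOn.mul (by fun_prop) (ContinuousOn.pow (ContinuousOn.inv₀ (by fun_prop) ?_) _)
    intro x hx
    have h4 : (1 : ℝ) ≤ ((n + j : ℕ) : ℝ) := by
      have : 1 ≤ n + j := by omega
      exact_mod_cast this
    have := hx.1
    linarith
  have hpade : (k.factorial : ℝ) ^ (k * (D + 1)) * padeI k n D =
      ∑ j ∈ range k, ∑ i ∈ Icc 1 (D + 1), (c j i : ℝ) *
        ∫ x in (0 : ℝ)..1, x ^ D * (1 - x) ^ D * ((x + ((n + j : ℕ) : ℝ))⁻¹) ^ i := by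
    unfold padeI
    rw [← intervalIntegral.integral_const_mul]
    have e1 : ∫ x in (0 : ℝ)..1, (k.factorial : ℝ) ^ (k * (D + 1)) *
        (x ^ D * (1 - x) ^ D * ∏ j ∈ range k, ((x + ((n + j : ℕ) : ℝ))⁻¹) ^ (D + 1)) =
        ∫ x in (0 : ℝ)..1, ∑ j ∈ range k, ∑ i ∈ Icc 1 (D + 1), (c j i : ℝ) *
          (x ^ D * (1 - x) ^ D * ((x + ((n + j : ℕ) : ℝ))⁻¹) ^ i) := by
      refine intervalIntegral.integral_congr fun x hx => ?_
      rw [Set.uIcc_of_le zero_le_one] at hx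
      have := hc2 x hx.1
      show (k.factorial : ℝ) ^ (k * (D + 1)) *
        (x ^ D * (1 - x) ^ D * ∏ j ∈ range k, ((x + ((n + j : ℕ) : ℝ))⁻¹) ^ (D + 1)) = _
      have e2 : (k.factorial : ℝ) ^ (k * (D + 1)) *
          (x ^ D * (1 - x) ^ D * ∏ j ∈ range k, ((x + ((n + j : ℕ) : ℝ))⁻¹) ^ (D + 1)) =
          x ^ D * (1 - x) ^ D * ((k.factorial : ℝ) ^ (k * (D + 1)) *
            ∏ j ∈ range k, ((x + ((n + j : ℕ) : ℝ))⁻¹) ^ (D + 1)) := by ring
      rw [e2, this, mul_sum]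
      refine sum_congr rfl fun j _ => ?_
      rw [mul_sum]
      exact sum_congr rfl fun i _ => by ring
    rw [e1, intervalIntegral.integral_finsetSum]
    · refine sum_congr rfl fun j _ => ?_
      rw [intervalIntegral.integral_finsetSum]
      · exact sum_congr rfl fun i _ => intervalIntegral.integral_const_mul _ _
      · intro i _
        exact (hint j i).const_mul _
    · intro j _
      have h5 := IntervalIntegrable.sum (Icc 1 (D + 1)) (fun i _ => (hint j i).const_mul (c j i : ℝ))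
      have e6 : (fun x : ℝ => ∑ i ∈ Icc 1 (D + 1), (c j i : ℝ) *
          (x ^ D * (1 - x) ^ D * ((x + ((n + j : ℕ) : ℝ))⁻¹) ^ i)) =
          ∑ i ∈ Icc 1 (D + 1), fun x : ℝ => (c j i : ℝ) *
            (x ^ D * (1 - x) ^ D * ((x + ((n + j : ℕ) : ℝ))⁻¹) ^ i) := by
        funext x
        rw [Finset.sum_apply]
      rw [e6]
      exact h5
  obtain ⟨q, hq⟩ : ∃ q : ℕ, q = k.factorial ^ (k * (N - D)) := ⟨_, rfl⟩
  have hqf : k.factorial ^ (k * (N + 1)) = q * k.factorial ^ (k * (D + 1)) := by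
    rw [hq, ← pow_add, ← mul_add]
    congr 2
    omega
  refine ⟨(q : ℤ) * ∑ j ∈ range k, ∑ i ∈ Icc 1 (D + 1), c j i * r j i,
    fun j => (q : ℤ) * d * ∑ i ∈ Icc 1 (D + 1), c j i * A j i, ?_, ?_⟩
  · have e1 : ((k.factorial ^ (k * (N + 1)) * d : ℕ) : ℝ) * padeI k n D =
        q * (d * ((k.factorial : ℝ) ^ (k * (D + 1)) * padeI k n D)) := by
      rw [hqf]
      push_cast
      ring
    have e2 : (d : ℝ) * ∑ j ∈ range k, ∑ i ∈ Icc 1 (D + 1), (c j i : ℝ) *
        ∫ x in (0 : ℝ)..1, x ^ D * (1 - x) ^ D * ((x + ((n + j : ℕ) : ℝ))⁻¹) ^ i =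
        ∑ j ∈ range k, ∑ i ∈ Icc 1 (D + 1), (c j i : ℝ) *
          (d * A j i * Real.log ((((n + j : ℕ) : ℝ) + 1) / ((n + j : ℕ) : ℝ)) + r j i) := by
      rw [mul_sum]
      refine sum_congr rfl fun j _ => ?_
      rw [mul_sum]
      refine sum_congr rfl fun i hi => ?_
      rw [mem_Icc] at hi
      rw [← (hAr j i hi.1 hi.2).2]
      ring
    rw [e1, hpade, e2]
    push_cast
    simp only [mul_add, sum_add_distrib, mul_sum, sum_mul]
    rw [add_comm]
    congr 1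
    refine sum_congr rfl fun j _ => sum_congr rfl fun i _ => ?_
    ring
  · have hA' : ∀ j ∈ range k, ∀ i ∈ Icc 1 (D + 1), |A j i| ≤ ((n : ℤ) + k + 1) ^ (2 * D) := by
      intro j hj i hi
      rw [mem_Icc] at hi
      rw [mem_range] at hj
      refine (hAr j i hi.1 hi.2).1.trans ?_
      refine pow_le_pow_left₀ (by positivity) ?_ _
      push_cast
      omega
    have hX : (0 : ℤ) ≤ ((n : ℤ) + k + 1) ^ (2 * D) := by positivity
    calc ∑ j ∈ range k, |(q : ℤ) * d * ∑ i ∈ Icc 1 (D + 1), c j i * A j i|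
        ≤ ∑ j ∈ range k, (q : ℤ) * d * ((∑ i ∈ Icc 1 (D + 1), |c j i|) * ((n : ℤ) + k + 1) ^ (2 * D)) := by
          refine sum_le_sum fun j hj => ?_
          rw [abs_mul, abs_of_nonneg (by positivity : (0 : ℤ) ≤ (q : ℤ) * d)]
          refine mul_le_mul_of_nonneg_left ?_ (by positivity)
          rw [sum_mul]
          refine (abs_sum_le_sum_abs _ _).trans (sum_le_sum fun i hi => ?_)
          rw [abs_mul]
          exact mul_le_mul_of_nonneg_left (hA' j hj i hi) (abs_nonneg _)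
      _ = (q : ℤ) * d * (∑ j ∈ range k, ∑ i ∈ Icc 1 (D + 1), |c j i|) * ((n : ℤ) + k + 1) ^ (2 * D) := by
          rw [← mul_sum, ← sum_mul]
          ring
      _ ≤ (q : ℤ) * d * (2 * (k.factorial : ℤ)) ^ (k * (D + 1)) * ((n : ℤ) + k + 1) ^ (2 * D) := by
          gcongr
      _ ≤ ((2 * (k.factorial : ℤ)) ^ (k * (N - D)) * C₃ ^ (2 * (N + 1)) * (2 * (k.factorial : ℤ)) ^ (k * (D + 1))) *
            ((n : ℤ) + k + 1) ^ (2 * D) := by
          have a1 : (q : ℤ) ≤ (2 * (k.factorial : ℤ)) ^ (k * (N - D)) := by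
            rw [hq]
            push_cast
            refine pow_le_pow_left₀ (by positivity) ?_ _
            have : (0 : ℤ) ≤ k.factorial := by positivity
            linarith
          have a2 : (d : ℤ) ≤ C₃ ^ (2 * (N + 1)) := by
            have : d ≤ C₃ ^ (2 * (N + 1)) := hd2.trans (Nat.pow_le_pow_right hC₃ (by omega))
            exact_mod_cast this
          gcongr
      _ = ((((2 * k.factorial) ^ k * C₃ ^ 2 : ℕ) : ℤ)) ^ (N + 1) * ((n : ℤ) + k + 1) ^ (2 * D) := by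
          congr 1
          push_cast
          rw [mul_pow ((2 * (k.factorial : ℤ)) ^ k) ((C₃ : ℤ) ^ 2) (N + 1), ← pow_mul, ← pow_mul]
          have : (2 * (k.factorial : ℤ)) ^ (k * (N + 1)) = (2 * (k.factorial : ℤ)) ^ (k * (N - D)) *
              (2 * (k.factorial : ℤ)) ^ (k * (D + 1)) := by
            rw [← pow_add, ← mul_add]
            congr 2
            omega
          rw [this]
          ring

end Pool.Agent.Helper2.GS
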