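import Pool.Agent.Helper79.GS.St5

set_option autoImplicit false

namespace Pool.Agent.Helper2.GS

open Pool.Agent.Helper79.GS Pool.Agent.Helper19.SK Pool.Agent.Helper73.DC Finset
open scoped Classical

private lemma b01_le (p : Prop) : b01 p ≤ 1 := by
  unfold b01
  split_ifs <;> simp

private lemma b01_one (p : Prop) : b01 p = 1 ↔ p := by
  unfold b01
  split_ifs with h <;> simp [h]

private lemma b01_zero (p : Prop) : b01 p = 0 ↔ ¬ p := by
  unfold b01
  split_ifs with h <;> simp [h]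

private lemma b01_ne (p : Prop) : b01 p ≠ 0 ↔ p := by
  unfold b01
  split_ifs with h <;> simp [h]

private lemma b01_congr {p q : Prop} (h : p ↔ q) : b01 p = b01 q := by
  rw [propext h]

private lemma pa (F S P1 P2 P3 P4 P5 P6 P7 E : Prop) (hF : F) :
    (¬S ∧ ((S ∨ (¬P5 ∧ ¬P2)) ∧ E ∧ P7 ∧ ¬P6 ∧ ¬P3 ∧ (¬P4 → P1))) ↔
      (((((F → ¬S) ∧ E ∧ P7 ∧ ¬P6 ∧ (S ∨ ¬P5)) ∧ (S ∨ ¬P2)) ∧ ¬P3) ∧ (P4 ∨ P1)) := by
  by_cases hS : S <;> by_cases h4 : P4 <;> simp only [hF, hS, h4] <;> tauto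

private lemma pb (F S P1 P2 P3 P4 P5 P6 P7 E : Prop) (hF : ¬ F) :
    ((S ∨ (¬P5 ∧ ¬P2)) ∧ E ∧ P7 ∧ ¬P6 ∧ ¬P3 ∧ (¬P4 → P1)) ↔
      (((((F → ¬S) ∧ E ∧ P7 ∧ ¬P6 ∧ (S ∨ ¬P5)) ∧ (S ∨ ¬P2)) ∧ ¬P3) ∧ (P4 ∨ P1)) := by
  by_cases hS : S <;> by_cases h4 : P4 <;> simp only [hF, hS, h4] <;> tauto

/-- Calls of the kind 6. -/
theorem hTG6 (hBND : StBND) (hFLD : StFLD) (hARN : StARN) : StTG6 := by
  intro w r c a b u k m fl d s t x hOk
  obtain ⟨_, _, _, hPh14, _, _, _, _, _, _, _, _, _, _, _, _, _, hPh16, _⟩ := hBND w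
  have hN : 16 ≤ NN 16 w := by
    calc 16 ≤ PhN (NN 16 w) w := hPh16
      _ ≤ PhN (NN 16 w) w ^ 14 := Nat.le_self_pow (by norm_num) _
      _ ≤ NN 16 w := hPh14
  obtain ⟨_, _, _, hF⟩ := hFLD w
  have hz := hF 6 r c a b u k m fl d s t x hOk
  obtain ⟨_, _, hr, hc, ha, hb, hu, hk1, hk2, hm, hfl, hd, hs1, ht1, hx, hst⟩ := hOk
  have hk : k ≤ nW w * nW w := hk2 (by norm_num)
  obtain ⟨hs, ht⟩ := hst rfl
  have hp3 : 0 < 3 ^ (nW w * nW w) := by positivity
  have hst0 : 0 < (2 ^ LL (nW w) + 1) * (2 ^ LL (nW w) + 2) := by positivity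
  have hx0 : 0 < Xb (LL (nW w)) := by omega
  -- the calls
  have ok0 : OkF w 2 r c 0 0 s 0 0 0 0 0 0 0 :=
    ⟨by norm_num, by norm_num, hr, hc, hp3, hp3, hs, by omega, fun _ => Nat.zero_le _, Nat.zero_le _, by norm_num,
      Nat.zero_le _, hst0, hst0, hx0, fun h => absurd h (by norm_num)⟩
  have ok1 : OkF w 2 r (1 - c) 0 0 t 0 0 0 0 0 0 0 :=
    ⟨by norm_num, by norm_num, hr, by omega, hp3, hp3, ht, by omega, fun _ => Nat.zero_le _, Nat.zero_le _, by norm_num,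
      Nat.zero_le _, hst0, hst0, hx0, fun h => absurd h (by norm_num)⟩
  have ok2 : OkF w 3 r c a b t k 0 0 0 0 0 0 :=
    ⟨by norm_num, by norm_num, hr, hc, ha, hb, ht, by omega, fun h => absurd rfl h, Nat.zero_le _, by norm_num,
      Nat.zero_le _, hst0, hst0, hx0, fun h => absurd h (by norm_num)⟩
  have hc0 := hF 2 r c 0 0 s 0 0 0 0 0 0 0 ok0
  have hc1 := hF 2 r (1 - c) 0 0 t 0 0 0 0 0 0 0 ok1
  have hc2 := hF 3 r c a b t k 0 0 0 0 0 0 ok2
  generalize hzd : zz (NN 16 w) w 6 r c a b u k m fl d s t x = z at hz ⊢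
  obtain ⟨⟨h0, h1, h2, h3, h4, h5, h6, h7, h8, h9, h10, h11, h12⟩, hzN, hzV, hzR, hzO⟩ := hz
  have eIni : IniN (NN 16 w) w z = ini6 (NN 16 w) w c a b u fl s t := by
    unfold IniN
    rw [h0, if_pos rfl, h2, h3, h4, h5, h8, h10, h11]
  have eLen : LenN (NN 16 w) w z = 3 := by
    unfold LenN
    rw [h0, if_neg (by norm_num), if_neg (by norm_num), if_neg (by norm_num), if_neg (by norm_num),
      if_neg (by norm_num), if_pos rfl]
  have eDel : ∀ j, DelN (NN 16 w) w z j = del6 (NN 16 w) w r c a b k s t j := by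
    intro j
    unfold DelN
    rw [h0, if_neg (by norm_num), if_neg (by norm_num), if_neg (by norm_num), if_neg (by norm_num),
      if_neg (by norm_num), if_pos rfl, h1, h2, h3, h4, h6, h10, h11]
  have eStp : ∀ j a' y, StpN (NN 16 w) w z j a' y = stp6 (NN 16 w) w c u s t j a' y := by
    intro j a' y
    unfold StpN
    rw [h0, if_neg (by norm_num), if_neg (by norm_num), if_neg (by norm_num), if_neg (by norm_num),
      if_neg (by norm_num), if_pos rfl, h2, h5, h10, h11]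
  have eOut : ∀ a', OutN (NN 16 w) w z a' = b01 (a' = 1) := by
    intro a'
    unfold OutN
    rw [h0, if_neg (by norm_num), if_neg (by norm_num)]
  have d0 : del6 (NN 16 w) w r c a b k s t 0 = zz (NN 16 w) w 2 r c 0 0 s 0 0 0 0 0 0 0 := by
    unfold del6
    rw [if_pos rfl]
  have d1 : del6 (NN 16 w) w r c a b k s t 1 = zz (NN 16 w) w 2 r (1 - c) 0 0 t 0 0 0 0 0 0 0 := by
    unfold del6
    rw [if_neg (by norm_num), if_pos rfl]
  have d2 : del6 (NN 16 w) w r c a b k s t 2 = zz (NN 16 w) w 3 r c a b t k 0 0 0 0 0 0 := by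
    unfold del6
    rw [if_neg (by norm_num), if_neg (by norm_num)]
  have rk6 : rkW w z = r * ((nW w * nW w + 2) * (LL (nW w) + 6) + 2) + (3 + k * (LL (nW w) + 6)) := by
    rw [hzR]
    unfold rkF
    rw [if_neg (by norm_num), if_neg (by norm_num), if_neg (by norm_num), if_neg (by norm_num), if_neg (by norm_num),
      if_neg (by norm_num), if_pos rfl]
  have rk2 : ∀ q, rkF w 2 r q 0 = r * ((nW w * nW w + 2) * (LL (nW w) + 6) + 2) + 1 := by
    intro q
    unfold rkF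
    rw [if_neg (by norm_num), if_neg (by norm_num), if_pos rfl]
  have rk3 : rkF w 3 r k 0 = r * ((nW w * nW w + 2) * (LL (nW w) + 6) + 2) + (2 + k * (LL (nW w) + 6)) := by
    unfold rkF
    rw [if_neg (by norm_num), if_neg (by norm_num), if_neg (by norm_num), if_pos rfl]
  have v0 : ValW w (zz (NN 16 w) w 2 r c 0 0 s 0 0 0 0 0 0 0) = b01 (EN (AW w) (HW w) r (cB c) s) := by
    rw [hc0.2.2.1]
    unfold ValF
    rw [if_neg (by norm_num), if_pos rfl]
  have v1 : ValW w (zz (NN 16 w) w 2 r (1 - c) 0 0 t 0 0 0 0 0 0 0) = b01 (EN (AW w) (HW w) r (cB (1 - c)) t) := by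
    rw [hc1.2.2.1]
    unfold ValF
    rw [if_neg (by norm_num), if_pos rfl]
  have v2 : ValW w (zz (NN 16 w) w 3 r c a b t k 0 0 0 0 0 0) =
      b01 (Xk (AW w) (EN (AW w) (HW w) r) (VW w a b) (cB c) k t) := by
    rw [hc2.2.2.1]
    unfold ValF
    rw [if_neg (by norm_num), if_neg (by norm_num), if_pos rfl]
  refine ⟨?_, ?_, ?_, ?_, ?_⟩
  · rw [eIni]
    unfold ini6
    exact lt_of_le_of_lt (b01_le _) (by omega)
  · rw [eLen]; omega
  · intro j hj
    rw [eLen] at hj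
    rw [eDel]
    refine ⟨?_, ?_, ?_⟩
    · interval_cases j
      · rw [d0]; exact Or.inr ⟨_, _, _, _, _, _, _, _, _, _, _, _, _, ok0, rfl⟩
      · rw [d1]; exact Or.inr ⟨_, _, _, _, _, _, _, _, _, _, _, _, _, ok1, rfl⟩
      · rw [d2]; exact Or.inr ⟨_, _, _, _, _, _, _, _, _, _, _, _, _, ok2, rfl⟩
    · rw [rk6]
      interval_cases j
      · rw [d0, hc0.2.2.2.1, rk2]
        have : 0 ≤ k * (LL (nW w) + 6) := Nat.zero_le _
        omega
      · rw [d1, hc1.2.2.2.1, rk2]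
        have : 0 ≤ k * (LL (nW w) + 6) := Nat.zero_le _
        omega
      · rw [d2, hc2.2.2.2.1, rk3]
        omega
    · intro a' _ y _
      rw [eStp]
      unfold stp6
      split_ifs
      · exact lt_of_le_of_lt (b01_le _) (by omega)
      · exact lt_of_le_of_lt (b01_le _) (by omega)
      · exact lt_of_le_of_lt (b01_le _) (by omega)
  · intro a' _
    rw [eOut]
    exact lt_of_le_of_lt (b01_le _) (by omega)
  · rw [eLen]
    change ValW w z = OutN (NN 16 w) w z (StpN (NN 16 w) w z 2 (StpN (NN 16 w) w z 1 (StpN (NN 16 w) w z 0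
      (IniN (NN 16 w) w z) (ValW w (DelN (NN 16 w) w z 0))) (ValW w (DelN (NN 16 w) w z 1)))
      (ValW w (DelN (NN 16 w) w z 2)))
    rw [eOut, eStp, eStp, eStp, eDel, eDel, eDel, d0, d1, d2, v0, v1, v2, eIni, hzV]
    have e6 : ValF w 6 r c a b u k m fl d s t x = b01 (GW w r c a b u k fl s t) := by
      unfold ValF
      rw [if_neg (by norm_num), if_neg (by norm_num), if_neg (by norm_num), if_neg (by norm_num), if_neg (by norm_num),
        if_pos rfl]
    rw [e6]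
    have s0 : ∀ a' y, stp6 (NN 16 w) w c u s t 0 a' y = b01 (a' = 1 ∧ (s = u ∨ y = 0)) := by
      intro a' y; unfold stp6; rw [if_pos rfl]
    have s1 : ∀ a' y, stp6 (NN 16 w) w c u s t 1 a' y = b01 (a' = 1 ∧ y = 0) := by
      intro a' y; unfold stp6; rw [if_neg (by norm_num), if_pos rfl]
    have s2 : ∀ a' y, stp6 (NN 16 w) w c u s t 2 a' y = b01 (a' = 1 ∧ (ahN (NN 16 w) (nW w) c t ∨ y ≠ 0)) := by
      intro a' y; unfold stp6; rw [if_neg (by norm_num), if_neg (by norm_num)]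
    rw [s0, s1, s2]
    unfold ini6
    apply b01_congr
    rw [b01_one, b01_one, b01_one, b01_one, b01_ne, b01_zero, b01_zero]
    obtain ⟨hnc, -, -, hrv, -, -, -, -, -⟩ := hARN w c s t hc
    obtain ⟨-, -, -, -, hah, -, -, -, -⟩ := hARN w c t t hc
    obtain ⟨-, -, -, -, -, -, -, -, hsc⟩ := hARN w c u s hc
    have key : Gr (AW w) (EN (AW w) (HW w) r) (VW w a b) (cB c)
        (Xk (AW w) (EN (AW w) (HW w) r) (VW w a b) (cB c) k) u s t ↔
        ((s = u ∨ (¬ VN w a b s ∧ ¬ EN (AW w) (HW w) r (cB c) s)) ∧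
          areaN (NN 16 w) (nW w) 1 s + areaN (NN 16 w) (nW w) 0 u =
            areaN (NN 16 w) (nW w) 1 u + areaN (NN 16 w) (nW w) 0 s ∧
          rvN (NN 16 w) (nW w) c s t ∧ ¬ VN w a b t ∧ ¬ EN (AW w) (HW w) r (cB (1 - c)) t ∧
          (¬ ahN (NN 16 w) (nW w) c t → Xk (AW w) (EN (AW w) (HW w) r) (VW w a b) (cB c) k t)) := by
      unfold Gr
      rw [hnc, hrv, hah, hsc]
      rfl
    unfold GW
    by_cases hf : fl = 1
    · rw [if_pos hf]
      unfold del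
      rw [key]
      exact pa _ _ _ _ _ _ _ _ _ _ hf
    · rw [if_neg hf]
      rw [key]
      exact pb _ _ _ _ _ _ _ _ _ _ hf

end Pool.Agent.Helper2.GS
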