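import Pool.Agent.Helper79.GS.St3

set_option autoImplicit false

namespace Pool.Agent.Helper2.GS

open Pool.Agent.Helper79.GS

private lemma cast_wk {n : ℕ} {E : Fin n → Fin n → Prop} {q q' : ℕ} {a b : Fin n ⊕ Fin n}
    {z z' : Fin n → Fin n → ℤ} (h : Wk E q a b z) (hq : q = q') (hz : z = z') : Wk E q' a b z' := by
  subst hq; subst hz; exact h

private lemma conc {n : ℕ} {E : Fin n → Fin n → Prop} {q : ℕ} {a b : Fin n ⊕ Fin n}
    {z : Fin n → Fin n → ℤ} (h : Wk E q a b z) {q' : ℕ} {c : Fin n ⊕ Fin n} {z' : Fin n → Fin n → ℤ}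
    (h' : Wk E q' b c z') : Wk E (q + q') a c (z + z') := by
  induction h' with
  | nil b => exact cast_wk h (by simp) (by simp)
  | cons q1 b1 b2 c1 z1 z2 _ hs ih =>
    exact cast_wk (Wk.cons _ _ _ _ _ _ (ih h) hs) (by ring) (by rw [add_assoc])

private lemma one {n : ℕ} {E : Fin n → Fin n → Prop} {a b : Fin n ⊕ Fin n}
    {z : Fin n → Fin n → ℤ} (h : Stp E a b z) : Wk E 1 a b z :=
  cast_wk (Wk.cons 0 a a b 0 z (Wk.nil a) h) (by simp) (by simp)

private lemma revs {n : ℕ} {E : Fin n → Fin n → Prop} {a b : Fin n ⊕ Fin n}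
    {z : Fin n → Fin n → ℤ} (h : Stp E a b z) : Stp E b a (-z) := by
  cases h with
  | stay a => rw [neg_zero]; exact Stp.stay a
  | fw i j hE => exact Stp.bw i j hE
  | bw i j hE => rw [neg_neg]; exact Stp.fw i j hE

private lemma rev {n : ℕ} {E : Fin n → Fin n → Prop} {q : ℕ} {a b : Fin n ⊕ Fin n}
    {z : Fin n → Fin n → ℤ} (h : Wk E q a b z) : Wk E q b a (-z) := by
  induction h with
  | nil b => exact cast_wk (Wk.nil b) rfl (by simp)
  | cons q1 b1 b2 c1 z1 z2 _ hs ih =>
    exact cast_wk (conc (one (revs hs)) ih) (by ring) (by rw [neg_add, add_comm])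

private lemma split {n : ℕ} {E : Fin n → Fin n → Prop} (q : ℕ) (a : Fin n ⊕ Fin n) :
    ∀ (q' : ℕ) (c : Fin n ⊕ Fin n) (z : Fin n → Fin n → ℤ), Wk E (q + q') a c z →
      ∃ b z1 z2, Wk E q a b z1 ∧ Wk E q' b c z2 ∧ z = z1 + z2 := by
  intro q'
  induction q' with
  | zero =>
    intro c z h
    exact ⟨c, z, 0, h, Wk.nil c, by simp⟩
  | succ k ih =>
    intro c z h
    have h' : Wk E ((q + k) + 1) a c z := h
    cases h' with
    | cons _ _ b _ z1 z2 hw hs =>
      obtain ⟨b', w1, w2, h1, h2, h3⟩ := ih _ _ hw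
      refine ⟨b', w1, w2 + z2, h1, Wk.cons _ _ _ _ _ _ h2 hs, ?_⟩
      rw [h3, add_assoc]

private lemma step_abs {n : ℕ} {E : Fin n → Fin n → Prop} {a b : Fin n ⊕ Fin n}
    {z : Fin n → Fin n → ℤ} (h : Stp E a b z) (i j : Fin n) : |z i j| ≤ 1 ∧ (z i j ≠ 0 → E i j) := by
  cases h with
  | stay a => simp
  | fw i' j' hE =>
    unfold un
    by_cases hc : i = i' ∧ j = j'
    · obtain ⟨rfl, rfl⟩ := hc
      simp [hE]
    · simp [hc]
  | bw i' j' hE =>
    have e : (-un i' j') i j = - (un i' j' i j) := rfl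
    rw [e]
    unfold un
    by_cases hc : i = i' ∧ j = j'
    · obtain ⟨rfl, rfl⟩ := hc
      simp [hE]
    · simp [hc]

private lemma wk_abs {n : ℕ} {E : Fin n → Fin n → Prop} {q : ℕ} {a b : Fin n ⊕ Fin n}
    {z : Fin n → Fin n → ℤ} (h : Wk E q a b z) (i j : Fin n) :
    |z i j| ≤ (q : ℤ) ∧ (z i j ≠ 0 → E i j) := by
  induction h with
  | nil b => simp
  | cons q1 b1 b2 c1 z1 z2 _ hs ih =>
    have hs' := step_abs hs i j
    refine ⟨?_, ?_⟩
    · have e : (z1 + z2) i j = z1 i j + z2 i j := rfl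
      rw [e]
      have := abs_add_le (z1 i j) (z2 i j)
      push_cast
      linarith [ih.1, hs'.1]
    · intro hne
      by_cases h1 : z1 i j = 0
      · have e : (z1 + z2) i j = z1 i j + z2 i j := rfl
        rw [e, h1, zero_add] at hne
        exact hs'.2 hne
      · exact ih.2 h1

/-- indicator of a row -/
private def ri {n : ℕ} (a : Fin n ⊕ Fin n) (i : Fin n) : ℤ := if a = Sum.inl i then 1 else 0

/-- indicator of a column -/
private def ci {n : ℕ} (a : Fin n ⊕ Fin n) (j : Fin n) : ℤ := if a = Sum.inr j then 1 else 0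

private lemma un_row {n : ℕ} (i' j' i : Fin n) : ∑ j, un i' j' i j = if i = i' then 1 else 0 := by
  unfold un
  by_cases h : i = i'
  · simp [h]
  · simp [h]

private lemma un_col {n : ℕ} (i' j' j : Fin n) : ∑ i, un i' j' i j = if j = j' then 1 else 0 := by
  unfold un
  by_cases h : j = j'
  · simp [h]
  · simp [h]

private lemma step_sum {n : ℕ} {E : Fin n → Fin n → Prop} {a b : Fin n ⊕ Fin n}
    {z : Fin n → Fin n → ℤ} (h : Stp E a b z) :
    (∀ i, ∑ j, z i j = ri a i - ri b i) ∧ (∀ j, ∑ i, z i j = ci b j - ci a j) := by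
  cases h with
  | stay a => simp
  | fw i' j' hE =>
    refine ⟨fun i => ?_, fun j => ?_⟩
    · rw [un_row]
      unfold ri
      by_cases h : i = i'
      · subst h; simp
      · have h' : i' ≠ i := fun e => h e.symm
        simp [h, h']
    · rw [un_col]
      unfold ci
      by_cases h : j = j'
      · subst h; simp
      · have h' : j' ≠ j := fun e => h e.symm
        simp [h, h']
  | bw i' j' hE =>
    have e : ∀ i j, (-un i' j') i j = - (un i' j' i j) := fun _ _ => rfl
    refine ⟨fun i => ?_, fun j => ?_⟩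
    · simp only [e, Finset.sum_neg_distrib]
      rw [un_row]
      unfold ri
      by_cases h : i = i'
      · subst h; simp
      · have h' : i' ≠ i := fun e => h e.symm
        simp [h, h']
    · simp only [e, Finset.sum_neg_distrib]
      rw [un_col]
      unfold ci
      by_cases h : j = j'
      · subst h; simp
      · have h' : j' ≠ j := fun e => h e.symm
        simp [h, h']

private lemma wk_sum {n : ℕ} {E : Fin n → Fin n → Prop} {q : ℕ} {a b : Fin n ⊕ Fin n}
    {z : Fin n → Fin n → ℤ} (h : Wk E q a b z) :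
    (∀ i, ∑ j, z i j = ri a i - ri b i) ∧ (∀ j, ∑ i, z i j = ci b j - ci a j) := by
  induction h with
  | nil b => simp
  | cons q1 b1 b2 c1 z1 z2 _ hs ih =>
    have hs' := step_sum hs
    have e : ∀ i j, (z1 + z2) i j = z1 i j + z2 i j := fun _ _ => rfl
    refine ⟨fun i => ?_, fun j => ?_⟩
    · simp only [e, Finset.sum_add_distrib]
      rw [ih.1 i, hs'.1 i]; ring
    · simp only [e, Finset.sum_add_distrib]
      rw [ih.2 j, hs'.2 j]; ring

private lemma step_mono {n : ℕ} {E E' : Fin n → Fin n → Prop} (hE : ∀ i j, E' i j → E i j)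
    {a b : Fin n ⊕ Fin n} {z : Fin n → Fin n → ℤ} (h : Stp E' a b z) : Stp E a b z := by
  cases h with
  | stay a => exact Stp.stay a
  | fw i' j' h => exact Stp.fw i' j' (hE _ _ h)
  | bw i' j' h => exact Stp.bw i' j' (hE _ _ h)

private lemma wk_mono {n : ℕ} {E E' : Fin n → Fin n → Prop} (hE : ∀ i j, E' i j → E i j)
    {q : ℕ} {a b : Fin n ⊕ Fin n} {z : Fin n → Fin n → ℤ} (h : Wk E' q a b z) : Wk E q a b z := by
  induction h with
  | nil b => exact Wk.nil b
  | cons q1 b1 b2 c1 z1 z2 _ hs ih => exact Wk.cons _ _ _ _ _ _ ih (step_mono hE hs)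

private lemma wk_le {n : ℕ} {E : Fin n → Fin n → Prop} {q : ℕ} {a b : Fin n ⊕ Fin n}
    {z : Fin n → Fin n → ℤ} (h : Wk E q a b z) (k : ℕ) : Wk E (q + k) a b z := by
  induction k with
  | zero => exact h
  | succ k ih =>
    exact cast_wk (Wk.cons _ _ _ _ _ _ ih (Stp.stay b)) rfl (by simp)

/-- Elementary facts about lazy walks. -/
theorem hWK1 : StWK1 := by
  intro n E
  refine ⟨fun q q' a b c z z' h h' => conc h h', fun q a b z h => rev h,
    fun q q' a c z h => split q a q' c z h, fun q a b z h i j => wk_abs h i j, ?_,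
    fun E' hE q a b z h => wk_mono hE h, ?_⟩
  · intro q a z h
    have := wk_sum h
    exact ⟨fun i => by rw [this.1 i]; ring, fun j => by rw [this.2 j]; ring⟩
  · intro q q' a b z hq h
    exact cast_wk (wk_le h (q' - q)) (by omega) rfl

end Pool.Agent.Helper2.GS
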